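import Mathlib
import Pool.Agent.H26.BL2

set_option autoImplicit false

namespace Pool.Agent.Results.MP_2139d9_an.Counterexample

open H26 BL0 BL1 BL2

theorem result : ∃ P₁ P₂ : BL, Proj P₁ ∧ Proj P₂ ∧ HasUnit P₁ ∧ HasUnit P₂ ∧
    ¬ Proj (prod P₁ P₂) := by
  refine ⟨l1, real, l1_proj, real_proj, l1_unit, real_unit, fun h => ?_⟩
  obtain ⟨X, Q, -, h1, h2⟩ := obstruction
  obtain ⟨S, h3, h4, h5⟩ := h X _ Q h1 (.id ℝ _) (fun _ => rfl) (1 / 2) one_half_pos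
  linarith [h2 S h3 h4, ContinuousLinearMap.norm_id_le (𝕜 := ℝ) (E := prod l1 real)]

end Pool.Agent.Results.MP_2139d9_an.Counterexample
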